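import Pool.Agent.W838.DC.Zs
import Pool.Agent.W227.DC.Final
import Pool.Agent.Helper703.KL.Bruhat

/-! Project DC wave 3: `S_ISO` from `S_RES` and `S_DES`. -/

set_option autoImplicit false

namespace Pool.Agent.W143.DC

open Pool.Agent.W838.DC
open Pool.Agent.Helper703.KL (refl_shift dmax)

section lifting

variable {B : Type*} {M : CoxeterMatrix B} {W : Type*} [Group W] {cs : CoxeterSystem M W}

theorem ss (i : B) (x : W) : cs.simple i * (cs.simple i * x) = x := by
  rw [← mul_assoc, cs.simple_mul_simple_self, one_mul]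

theorem tr {x y z : W} (h : BLe cs x y) (h' : BLe cs y z) : BLe cs x z :=
  Relation.ReflTransGen.trans h h'

theorem len {x y : W} (h : BLe cs x y) : x = y ∨ cs.length x < cs.length y :=
  Pool.Agent.Helper703.KL.BLe.length (cs := cs) h

theorem anti {x y : W} (h : BLe cs x y) (h' : BLe cs y x) : x = y := by
  rcases len h with h1 | h1
  · exact h1
  · rcases len h' with h2 | h2
    · exact h2.symm
    · omega

theorem step_down (i : B) {x : W} (h : cs.length (cs.simple i * x) < cs.length x) :
    BLe cs (cs.simple i * x) x :=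
  Relation.ReflTransGen.single ⟨cs.simple i, cs.isReflection_simple i, (ss i x).symm, h⟩

theorem step_up (i : B) {x : W} (h : cs.length x < cs.length (cs.simple i * x)) :
    BLe cs x (cs.simple i * x) :=
  Relation.ReflTransGen.single ⟨cs.simple i, cs.isReflection_simple i, rfl, h⟩

/-- `X ≤ Y`, `sY < Y`, `X < sX` imply `X ≤ sY` -/
theorem down (i : B) {X Y : W} (h : BLe cs X Y) (hX : cs.length X < cs.length (cs.simple i * X))
    (hY : cs.length (cs.simple i * Y) < cs.length Y) : BLe cs X (cs.simple i * Y) := by
  induction h with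
  | refl => omega
  | @tail Y' Y h1 h2 ih =>
    obtain ⟨t, ht, e1, hlt⟩ := h2
    by_cases hti : t = cs.simple i
    · rw [e1, hti, ss]
      exact h1
    · have ht' : cs.IsReflection (cs.simple i * t * cs.simple i) := by
        have := ht.conj (cs.simple i)
        rwa [cs.inv_simple] at this
      have e : cs.simple i * Y = cs.simple i * t * cs.simple i * (cs.simple i * Y') := by
        rw [e1]
        simp only [mul_assoc]
        rw [ss]
      have h5 : cs.length (cs.simple i * Y') < cs.length (cs.simple i * Y) := by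
        by_contra hcon
        have h6 : cs.length (cs.simple i * Y) ≠ cs.length (cs.simple i * Y') := by
          rw [e]
          exact ht'.length_mul_right_ne _
        have h7 := refl_shift ht i hti Y' (by rw [← e]; omega)
        rw [← e1] at h7
        omega
      have h8 : BLe cs (cs.simple i * Y') (cs.simple i * Y) :=
        Relation.ReflTransGen.single ⟨_, ht', e, h5⟩
      rcases lt_or_gt_of_ne (cs.length_simple_mul_ne Y' i) with h9 | h9
      · exact tr (ih h9) h8
      · exact tr h1 (tr (step_up i h9) h8)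

/-- `X ≤ Y`, `sY < Y`, `sX < X` imply `sX ≤ sY` -/
theorem down' (i : B) {X Y : W} (h : BLe cs X Y) (hX : cs.length (cs.simple i * X) < cs.length X)
    (hY : cs.length (cs.simple i * Y) < cs.length Y) :
    BLe cs (cs.simple i * X) (cs.simple i * Y) :=
  down i (tr (step_down i hX) h) (by rw [ss]; exact hX) hY

/-- `X ≤ Y`, `sY < Y` imply `sX ≤ Y` -/
theorem up (i : B) {X Y : W} (h : BLe cs X Y)
    (hY : cs.length (cs.simple i * Y) < cs.length Y) : BLe cs (cs.simple i * X) Y := by
  have h1 : Pool.Agent.Helper703.KL.BLe cs (cs.simple i * X) (dmax cs i Y) :=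
    (Pool.Agent.Helper703.KL.BLe.lift (cs := cs) i h).2
  rw [dmax, if_neg (by omega)] at h1
  exact h1

end lifting

section iso

variable {B : Type*} {M : CoxeterMatrix B} {W : Type*} [Group W] (cs : CoxeterSystem M W)

theorem tt {t : W} (ht : cs.IsReflection t) (x : W) : t * (t * x) = x := by
  rw [← mul_assoc, ht.mul_self, one_mul]

/-- the reflection of `Stab` goes down at the top -/
theorem stab_top {u v t : W} (h : Stab cs u v t) (huv : BLe cs u v) :
    InInt cs u v (t * v) ∧ cs.length (t * v) < cs.length v := by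
  have h1 : InInt cs u v (t * v) := h.maps v ⟨huv, Relation.ReflTransGen.refl⟩
  refine ⟨h1, ?_⟩
  rcases len h1.2 with h2 | h2
  · exact absurd (congrArg cs.length h2) (h.refl.length_mul_right_ne v)
  · exact h2

theorem iso (h1 : S_RES cs) (h2 : S_DES cs) : S_ISO cs := by
  intro u w huw hyp
  obtain ⟨φ, hφu, hφ⟩ := h2 u w hyp
  have hA : ∀ v, InInt cs u w v → (rcs cs).length (φ v) + cs.length u = cs.length v :=
    fun v hv => (hφ v hv).1
  have hB := fun v hv => (hφ v hv).2.1
  have hC := fun v hv => (hφ v hv).2.2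
  have huI : InInt cs u w u := ⟨Relation.ReflTransGen.refl, huw⟩
  have hex : ∀ b, InInt cs u w b → b ≠ u → ∃ t, Stab cs u b t := fun b hb hne =>
    hyp b ⟨hb.1, fun e => hne e.symm⟩ hb.2
  -- the reflection `t` of `Stab u b t` is a descent of `φ b`
  have hdesc : ∀ b t (hb : InInt cs u w b) (ht : Stab cs u b t),
      (rcs cs).length ((rcs cs).simple ⟨t, ht.refl⟩ * φ b) < (rcs cs).length (φ b) :=
    fun b t hb ht => (hB b hb t ht.refl).1 ht
  -- (1)
  have mono : ∀ n b, InInt cs u w b → cs.length b = n → ∀ a, BLe cs u a → BLe cs a b →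
      BLe (rcs cs) (φ a) (φ b) := by
    intro n
    induction n using Nat.strong_induction_on with
    | _ n ih =>
      intro b hb hn a hua hab
      by_cases hbu : b = u
      · have : a = u := anti (hbu ▸ hab) hua
        rw [this, hbu]
        exact Relation.ReflTransGen.refl
      · obtain ⟨t, ht⟩ := hex b hb hbu
        obtain ⟨htb, hlt⟩ := stab_top cs ht hb.1
        have hd := hdesc b t hb ht
        have htbI : InInt cs u w (t * b) := ⟨htb.1, tr htb.2 hb.2⟩
        have hsb : φ (t * b) = (rcs cs).simple ⟨t, ht.refl⟩ * φ b := hC b hb t ht.refl ht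
        have hbb : BLe (rcs cs) (φ (t * b)) (φ b) := by
          rw [hsb]; exact step_down _ hd
        obtain ⟨l1, l2, l3⟩ := ht.lift a b ⟨hua, hab⟩ ⟨hb.1, Relation.ReflTransGen.refl⟩ hab hlt
        have haI : InInt cs u w a := ⟨hua, tr hab hb.2⟩
        rcases lt_or_gt_of_ne (ht.refl.length_mul_right_ne a) with h3 | h3
        · -- t a < a
          have hsa : Stab cs u a t := h1 u b t ht a ⟨hua, hab⟩ h3
          obtain ⟨hta, -⟩ := stab_top cs hsa hua
          have h4 := ih _ (by omega) (t * b) htbI rfl (t * a) hta.1 (l3 h3)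
          have h5 : φ (t * a) = (rcs cs).simple ⟨t, ht.refl⟩ * φ a := hC a haI t hsa.refl hsa
          have h6 := up ⟨t, ht.refl⟩ (tr h4 hbb) hd
          rw [h5, ss] at h6
          exact h6
        · exact tr (ih _ (by omega) (t * b) htbI rfl a hua (l2 h3)) hbb
  have mono' : ∀ a b, InInt cs u w a → InInt cs u w b → BLe cs a b → BLe (rcs cs) (φ a) (φ b) :=
    fun a b ha hb hab => mono _ b hb rfl a ha.1 hab
  -- (2)
  have refl' : ∀ n b, InInt cs u w b → cs.length b = n → ∀ a, InInt cs u w a →
      BLe (rcs cs) (φ a) (φ b) → BLe cs a b := by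
    intro n
    induction n using Nat.strong_induction_on with
    | _ n ih =>
      intro b hb hn a ha hab
      by_cases hbu : b = u
      · have h3 : (rcs cs).length (φ a) ≤ 0 := by
          rw [hbu, hφu] at hab
          rcases len hab with h4 | h4
          · rw [h4, (rcs cs).length_one]
          · rw [(rcs cs).length_one] at h4
            omega
        have h5 := hA a ha
        rcases len ha.1 with h6 | h6
        · rw [hbu, ← h6]
          exact Relation.ReflTransGen.refl
        · omega
      · obtain ⟨t, ht⟩ := hex b hb hbu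
        obtain ⟨htb, hlt⟩ := stab_top cs ht hb.1
        have hd := hdesc b t hb ht
        have htbI : InInt cs u w (t * b) := ⟨htb.1, tr htb.2 hb.2⟩
        have hsb : φ (t * b) = (rcs cs).simple ⟨t, ht.refl⟩ * φ b := hC b hb t ht.refl ht
        rcases lt_or_gt_of_ne ((rcs cs).length_simple_mul_ne (φ a) ⟨t, ht.refl⟩) with h3 | h3
        · have hsa : Stab cs u a t := (hB a ha t ht.refl).2 h3
          obtain ⟨hta, -⟩ := stab_top cs hsa ha.1
          have h5 : φ (t * a) = (rcs cs).simple ⟨t, ht.refl⟩ * φ a := hC a ha t hsa.refl hsa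
          have h6 : BLe (rcs cs) (φ (t * a)) (φ (t * b)) := by
            rw [h5, hsb]
            exact down' _ hab h3 hd
          have h7 := ih _ (by omega) (t * b) htbI rfl (t * a) ⟨hta.1, tr hta.2 ha.2⟩ h6
          have h8 := (ht.maps (t * a) ⟨hta.1, tr h7 htb.2⟩).2
          rwa [tt cs ht.refl] at h8
        · have h6 : BLe (rcs cs) (φ a) (φ (t * b)) := by
            rw [hsb]
            exact down _ hab h3 hd
          exact tr (ih _ (by omega) (t * b) htbI rfl a ha h6) htb.2
  have refl'' : ∀ a b, InInt cs u w a → InInt cs u w b → BLe (rcs cs) (φ a) (φ b) → BLe cs a b :=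
    fun a b ha hb hab => refl' _ b hb rfl a ha hab
  -- (3)
  have surj : ∀ n v, InInt cs u w v → cs.length v = n → ∀ X, BLe (rcs cs) X (φ v) →
      ∃ a, BLe cs u a ∧ BLe cs a v ∧ φ a = X := by
    intro n
    induction n using Nat.strong_induction_on with
    | _ n ih =>
      intro v hv hn X hX
      by_cases hvu : v = u
      · refine ⟨u, Relation.ReflTransGen.refl, by rw [hvu]; exact Relation.ReflTransGen.refl, ?_⟩
        rw [hvu, hφu] at hX
        rw [hφu]
        rcases len hX with h4 | h4
        · exact h4.symm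
        · rw [(rcs cs).length_one] at h4
          omega
      · obtain ⟨t, ht⟩ := hex v hv hvu
        obtain ⟨htb, hlt⟩ := stab_top cs ht hv.1
        have hd := hdesc v t hv ht
        have htbI : InInt cs u w (t * v) := ⟨htb.1, tr htb.2 hv.2⟩
        have hsb : φ (t * v) = (rcs cs).simple ⟨t, ht.refl⟩ * φ v := hC v hv t ht.refl ht
        rcases lt_or_gt_of_ne ((rcs cs).length_simple_mul_ne X ⟨t, ht.refl⟩) with h3 | h3
        · have h6 : BLe (rcs cs) ((rcs cs).simple ⟨t, ht.refl⟩ * X) (φ (t * v)) := by
            rw [hsb]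
            exact down' _ hX h3 hd
          obtain ⟨a1, hua1, ha1, hφa1⟩ := ih _ (by omega) (t * v) htbI rfl _ h6
          have ha1v : BLe cs a1 v := tr ha1 htb.2
          have ha1I : InInt cs u w a1 := ⟨hua1, tr ha1v hv.2⟩
          have h7 : cs.length a1 < cs.length (t * a1) := by
            rcases lt_or_gt_of_ne (ht.refl.length_mul_right_ne a1) with h8 | h8
            · exfalso
              have hsa : Stab cs u a1 t := h1 u v t ht a1 ⟨hua1, ha1v⟩ h8
              have h9 := (hB a1 ha1I t ht.refl).1 hsa
              rw [hφa1, ss] at h9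
              omega
            · exact h8
          have h8 := ht.maps a1 ⟨hua1, ha1v⟩
          have hsa : Stab cs u (t * a1) t := h1 u v t ht (t * a1) h8 (by rw [tt cs ht.refl]; exact h7)
          have h9 := hC (t * a1) ⟨h8.1, tr h8.2 hv.2⟩ t hsa.refl hsa
          rw [tt cs ht.refl, hφa1] at h9
          refine ⟨t * a1, h8.1, h8.2, ?_⟩
          exact (mul_left_cancel h9).symm
        · have h6 : BLe (rcs cs) X (φ (t * v)) := by
            rw [hsb]
            exact down _ hX h3 hd
          obtain ⟨a, hua, ha, hφa⟩ := ih _ (by omega) (t * v) htbI rfl _ h6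
          exact ⟨a, hua, tr ha htb.2, hφa⟩
  have hwI : InInt cs u w w := ⟨huw, Relation.ReflTransGen.refl⟩
  let f : {y // InInt cs u w y} → {y // InInt (rcs cs) 1 (φ w) y} := fun y =>
    ⟨φ y.1, by
      have := mono' u y.1 huI y.2 y.2.1
      rwa [hφu] at this, mono' y.1 w y.2 hwI y.2.2⟩
  have hf : Function.Bijective f := by
    constructor
    · intro a b hab
      have e : φ a.1 = φ b.1 := congrArg Subtype.val hab
      apply Subtype.ext
      refine anti (refl'' _ _ a.2 b.2 ?_) (refl'' _ _ b.2 a.2 ?_)
      · rw [e]; exact Relation.ReflTransGen.refl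
      · rw [e]; exact Relation.ReflTransGen.refl
    · rintro ⟨X, hX⟩
      obtain ⟨a, hua, haw, ha⟩ := surj _ w hwI rfl X hX.2
      exact ⟨⟨a, hua, haw⟩, Subtype.ext ha⟩
  refine ⟨φ w, Equiv.ofBijective f hf, fun a b => ?_⟩
  exact ⟨fun h => mono' _ _ a.2 b.2 h, fun h => refl'' _ _ a.2 b.2 h⟩

end iso

end Pool.Agent.W143.DC
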